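import Pool.Agent.Mg.F14ad9d.G13691e

/-! The hypothesis of the question characterises joint hitting along the primes. -/

open scoped BigOperators Classical ComplexConjugate Polynomial
open Finset Filter MeasureTheory Topology

noncomputable section

namespace Pool.Agent.MP_357fb4_an.Iff

/-- Joint ergodicity along the primes, as a limit statement. -/
theorem main_lim (H : HF) {ι : Type} [Fintype ι] {a : ι → ℝ → ℝ} (ha : ∀ i, a i ∈ H.car)
    (hgr : ∀ i, ∃ d : ℕ, ∀ᶠ t in atTop, |a i t| ≤ t ^ d)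
    (hfar : ∀ c : ι → ℝ, c ≠ 0 → ∀ p : ℤ[X],
      Tendsto (fun t : ℝ => |(∑ i, c i * a i t) - Polynomial.aeval t p|) atTop atTop) :
    ∃ c : ℕ → ℕ → ℝ, (∀ j n, 0 ≤ c j n) ∧ (∀ j n, ¬ n.Prime → c j n = 0) ∧
      (∀ n, Tendsto (fun j => c j n) atTop (𝓝 0)) ∧
      Tendsto (fun j => ∑ n ∈ range j, c j n) atTop (𝓝 (1 / 2)) ∧
      ∀ (Y : Type) [MeasurableSpace Y] (μ : Measure Y) [IsProbabilityMeasure μ] (S : Sys ℤ Y μ),
        Ergodic (S.act 1) μ → ∀ (F : Y → ℂ) (f : ι → Y → ℂ), B1 F → (∀ i, B1 (f i)) →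
          Tendsto (fun j => ∑ n ∈ range j, (c j n : ℂ) * ((corr S F f fun i => ⌊a i n⌋) -
            (∫ y, F y ∂μ) * ∏ i, ∫ y, f i y ∂μ)) atTop (𝓝 0) := by
  choose d hd using hgr
  set A := univ.sup d with hAd
  have hA : ∀ i, ∀ᶠ t in atTop, |a i t| ≤ t ^ A := fun i => by
    filter_upwards [hd i, eventually_ge_atTop 1] with t h1 h2
    exact h1.trans (pow_le_pow_right₀ h2 (le_sup (f := d) (mem_univ i)))
  obtain ⟨W, hWH, T, hW, hAdm⟩ := exW H ha (A + 3)
  have hm := mass hW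
  have hev : ∀ᶠ j in atTop, T ≤ j ∧ ∑ n ∈ range j, lam W T j n ≤ 1 :=
    (eventually_ge_atTop T).and (hm.eventually (eventually_le_nhds (by norm_num)))
  set c : ℕ → ℕ → ℝ := fun j n =>
    if T ≤ j ∧ ∑ n ∈ range j, lam W T j n ≤ 1 then lam W T j n else 0 with hcd
  have hce : ∀ᶠ j in atTop, c j = lam W T j := hev.mono fun j hj => funext fun n => if_pos hj
  have hc0 : ∀ j n, 0 ≤ c j n := fun j n => by
    simp only [hcd]
    split_ifs with h
    · exact lam_nonneg hW h.1 n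
    · exact le_rfl
  have hc1 : ∀ j, ∑ n ∈ range j, c j n ≤ 1 := fun j => by
    by_cases h : T ≤ j ∧ ∑ n ∈ range j, lam W T j n ≤ 1
    · simpa only [hcd, if_pos h] using h.2
    · simp only [hcd, if_neg h]; simp
  have hEQ := eqfloor (fun i n => a i n) c hc0 hc1 fun α hα =>
    (eqall H ha hA hfar hWH hW hAdm α hα).congr' (hce.mono fun j hj => by simp only [hj])
  refine ⟨c, hc0, fun j n hn => by simp [hcd, lam, th, hn], fun n => ?_,
    hm.congr' (hce.mono fun j hj => by simp only [hj]), fun Y _ μ _ S erg F f hF hf => ?_⟩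
  · refine Tendsto.congr' (hce.mono fun j hj => (congrFun hj n).symm) ?_
    unfold lam
    split_ifs
    · exact Glob1_top hW _
    · exact tendsto_const_nhds
  exact je S erg (fun i n => ⌊a i n⌋) c hc0 hc1 hEQ (fun m => by
    let e : Option {i // i ≠ m} → ι → ℝ := fun o =>
      o.elim (-Pi.single m 1) fun i => Pi.single i.1 1 - Pi.single m 1
    have he : ∀ o t, ∑ i, e o i * a i t = o.elim (-a m t) fun i => a i t - a m t := by
      intro o t
      cases o with
      | none => simp [e, Pi.single_apply]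
      | some i => simp [e, Pi.single_apply, sub_mul]
    have he0 : ∀ o, e o ≠ 0 := by
      intro o h
      have := congrFun h m
      cases o with
      | none => simp [e] at this
      | some i => simp [e, Pi.single_eq_of_ne i.2.symm] at this
    obtain ⟨s, hs, h⟩ := sc0 H hWH hW S (fun o t => ∑ i, e o i * a i t)
      (fun o => by simpa using hAdm (e o) 0 (by simp) (by simpa using hfar (e o) (he0 o) 0))
      (A + 1) fun o => comb_growth hA (e o)
    refine ⟨s, hs, ?_⟩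
    have h' : Ctl S s c fun o (n : ℕ) => ∑ i, e o i * a i n := fun B ε hε => by
      obtain ⟨δ, hδ, h⟩ := h B ε hε
      refine ⟨δ, hδ, fun K hK => ?_⟩
      filter_upwards [h K hK, hce] with j h1 h2
      rw [h2]; exact h1
    refine h'.congr (B₀ := 1) fun o n => ?_
    rw [he]
    have u1 := fun i => Int.floor_le (a i n)
    have u2 := fun i => Int.lt_floor_add_one (a i n)
    cases o with
    | none => simp only [Option.elim]; rw [abs_le]; constructor <;> linarith [u1 m, u2 m]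
    | some i =>
      simp only [Option.elim]; rw [abs_le]
      constructor <;> linarith [u1 m, u2 m, u1 i, u2 i]) hF hf

/-- From weighted averages to infinitely many primes. -/
theorem inf_of_avg {c : ℕ → ℕ → ℝ} (h0 : ∀ j n, 0 ≤ c j n) (h1 : ∀ j n, ¬ n.Prime → c j n = 0)
    (h2 : ∀ n, Tendsto (fun j => c j n) atTop (𝓝 0))
    (h3 : Tendsto (fun j => ∑ n ∈ range j, c j n) atTop (𝓝 (1 / 2))) {x : ℕ → ℝ} {ε : ℝ}
    (hε : 0 < ε) (h4 : ∀ δ : ℝ, 0 < δ → ∀ᶠ j in atTop, -δ ≤ ∑ n ∈ range j, c j n * x n) :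
    {n : ℕ | n.Prime ∧ -ε < x n}.Infinite := by
  intro hf
  obtain ⟨N, hN⟩ := hf.bddAbove
  have a1 : Tendsto (fun j => ∑ n ∈ range (N + 1), c j n * |x n + ε| - ε * ∑ n ∈ range j, c j n)
      atTop (𝓝 (∑ n ∈ range (N + 1), 0 * |x n + ε| - ε * (1 / 2))) :=
    (tendsto_finsetSum _ fun n _ => (h2 n).mul_const _).sub (h3.const_mul ε)
  simp only [zero_mul, sum_const_zero, zero_sub] at a1
  obtain ⟨j, b1, b2, b3⟩ := ((a1.eventually (gt_mem_nhds (show -(ε * (1 / 2)) < -(ε / 4) by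
    linarith))).and ((h4 (ε / 4) (by positivity)).and (eventually_ge_atTop (N + 1)))).exists
  have a2 : ∑ n ∈ range j, c j n * (x n + ε) ≤ ∑ n ∈ range (N + 1), c j n * |x n + ε| := by
    rw [← sum_range_add_sum_Ico _ b3]
    refine (add_le_add (sum_le_sum fun n _ => mul_le_mul_of_nonneg_left (le_abs_self _) (h0 j n))
      (sum_nonpos fun n hn => ?_)).trans_eq (add_zero _)
    by_cases hp : n.Prime
    · refine mul_nonpos_of_nonneg_of_nonpos (h0 j n) (not_lt.1 fun e => ?_)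
      have := hN (show n ∈ {n : ℕ | n.Prime ∧ -ε < x n} from ⟨hp, by linarith⟩)
      have := (mem_Ico.1 hn).1
      omega
    · rw [h1 j n hp, zero_mul]
  simp only [mul_add, sum_add_distrib, ← sum_mul] at a2
  linarith

theorem b1_ind {Y : Type} [MeasurableSpace Y] {B : Set Y} (hB : MeasurableSet B) :
    B1 (B.indicator fun _ => (1 : ℂ)) :=
  ⟨measurable_const.indicator hB, fun y => by by_cases h : y ∈ B <;> simp [h]⟩

theorem corr_ind {Y : Type} [MeasurableSpace Y] {μ : Measure Y} (S : Sys ℤ Y μ) {ι : Type}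
    [Fintype ι] {A₀ : Set Y} {A : ι → Set Y} (h0 : MeasurableSet A₀) (h : ∀ i, MeasurableSet (A i))
    (v : ι → ℤ) : corr S (A₀.indicator fun _ => 1) (fun i => (A i).indicator fun _ => 1) v =
      μ.real (A₀ ∩ ⋂ i, S.act (v i) ⁻¹' A i) := by
  have : (fun y => A₀.indicator (fun _ => (1 : ℂ)) y *
      ∏ i, (A i).indicator (fun _ => (1 : ℂ)) (S.act (v i) y)) =
      (A₀ ∩ ⋂ i, S.act (v i) ⁻¹' A i).indicator fun _ => 1 := by
    funext y
    by_cases e : y ∈ A₀ ∩ ⋂ i, S.act (v i) ⁻¹' A i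
    · rw [Set.indicator_of_mem e, Set.indicator_of_mem e.1, one_mul]
      exact prod_eq_one fun i _ =>
        Set.indicator_of_mem (show S.act (v i) y ∈ A i from Set.mem_iInter.1 e.2 i) _
    · rw [Set.indicator_of_notMem e]
      by_cases e' : y ∈ A₀
      · obtain ⟨i, hi⟩ : ∃ i, S.act (v i) y ∉ A i := by simpa [e'] using e
        exact mul_eq_zero_of_right _ (prod_eq_zero (mem_univ i) (Set.indicator_of_notMem hi _))
      · simp [e']
  rw [corr, this, integral_indicator_const _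
    (h0.inter (MeasurableSet.iInter fun i => (S.mp _).measurable (h i)))]
  simp

/-- The optimal lower bound in ergodic systems. -/
theorem sharp (H : HF) {ι : Type} [Fintype ι] {a : ι → ℝ → ℝ} (ha : ∀ i, a i ∈ H.car)
    (hgr : ∀ i, ∃ d : ℕ, ∀ᶠ t in atTop, |a i t| ≤ t ^ d)
    (hfar : ∀ c : ι → ℝ, c ≠ 0 → ∀ p : ℤ[X],
      Tendsto (fun t : ℝ => |(∑ i, c i * a i t) - Polynomial.aeval t p|) atTop atTop)
    {X : Type} [MeasurableSpace X] (μ : Measure X) [IsProbabilityMeasure μ] (T : Equiv.Perm X)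
    (hT : Measurable T) (hT' : Measurable T.symm) (erg : Ergodic T μ) {A₀ : Set X} {A : ι → Set X}
    (h0 : MeasurableSet A₀) (h : ∀ i, MeasurableSet (A i)) {ε : ℝ} (hε : 0 < ε) :
    {n : ℕ | n.Prime ∧ μ.real A₀ * ∏ i, μ.real (A i) - ε <
      μ.real (A₀ ∩ ⋂ i, (⇑(T ^ ⌊a i (n : ℝ)⌋)) ⁻¹' A i)}.Infinite := by
  obtain ⟨c, c0, c1, c2, c3, c4⟩ := main_lim H ha hgr hfar
  let S : Sys ℤ X μ := ⟨fun n => ⇑(T ^ n), Erg_zpow μ T hT hT' erg.toMeasurePreserving,
    fun g h y => by rw [zpow_add]; rfl, fun y => by simp⟩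
  have key := c4 X μ S (by simpa [S] using erg) _ _ (b1_ind h0) fun i => b1_ind (h i)
  simp only [corr_ind S h0 h, integral_indicator_const _ h0, integral_indicator_const _ (h _),
    Complex.real_smul, mul_one] at key
  have a1 := (Complex.continuous_re.tendsto 0).comp key
  simp only [Function.comp_def, ← Complex.ofReal_prod, ← Complex.ofReal_mul, ← Complex.ofReal_sub,
    ← Complex.ofReal_sum, Complex.ofReal_re, Complex.zero_re] at a1
  refine (inf_of_avg c0 c1 c2 c3 hε fun δ hδ => (a1.eventually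
    (le_mem_nhds (neg_lt_zero.2 hδ)))).mono fun n hn => ⟨hn.1, ?_⟩
  have := hn.2
  linarith

/-- A residue that the polynomial misses on the units, together with given shifts of it. -/
theorem miss (q : ℤ[X]) (S : Finset ℤ) : ∃ M : ℕ, 0 < M ∧ ∃ r : ℤ, ∀ n : ℕ, n.Prime → M < n →
    ∀ j ∈ S, ¬ (M : ℤ) ∣ q.eval (n : ℤ) - r - j := by
  induction S using Finset.induction_on with
  | empty => exact ⟨1, one_pos, 0, fun _ _ _ _ h => by simp at h⟩
  | insert j₀ S _ ih =>
    obtain ⟨M, hM, r, h⟩ := ih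
    obtain ⟨l, hl1, hl⟩ := Nat.exists_infinite_primes (M + 1)
    have hl0 : (0 : ℤ) < l := by exact_mod_cast hl.pos
    obtain ⟨w, hw1, hw2⟩ : ∃ w ∈ Ico (0 : ℤ) l, w ∉ (Ico (1 : ℤ) l).image fun x => q.eval x % l := by
      refine exists_mem_notMem_of_card_lt_card (card_image_le.trans_lt ?_)
      simp only [Int.card_Ico]
      omega
    obtain ⟨u, v, huv⟩ : IsCoprime (M : ℤ) l := Nat.isCoprime_iff_coprime.2
      (Nat.Coprime.symm (hl.coprime_iff_not_dvd.2 fun e => by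
        have := Nat.le_of_dvd hM e
        omega))
    refine ⟨M * l, Nat.mul_pos hM hl.pos, r * (v * l) + (w - j₀) * (u * M), fun n hn hlt j hj e => ?_⟩
    push_cast at e
    rcases mem_insert.1 hj with rfl | hj
    · have b1 : (l : ℤ) ∣ q.eval (n : ℤ) - w := by
        obtain ⟨z, hz⟩ := e
        exact ⟨M * z + (r - w + j) * v, by linear_combination hz + (w - j) * huv⟩
      have b2 : (n : ℤ) % l ≠ 0 := fun e0 => by
        have c1 : l ∣ n := by exact_mod_cast Int.dvd_of_emod_eq_zero e0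
        have c2 := (Nat.prime_dvd_prime_iff_eq hl hn).1 c1
        have := Nat.le_mul_of_pos_left l hM
        omega
      have b3 := Int.emod_nonneg (n : ℤ) hl0.ne'
      refine hw2 (mem_image.2 ⟨n % l, mem_Ico.2 ⟨by omega, Int.emod_lt_of_pos _ hl0⟩, ?_⟩)
      have b4 : (l : ℤ) ∣ q.eval (n : ℤ) - q.eval ((n : ℤ) % l) :=
        (Int.dvd_self_sub_emod (x := n) (m := l)).trans (Polynomial.sub_dvd_eval_sub _ _ q)
      rw [← Int.emod_eq_of_lt (mem_Ico.1 hw1).1 (mem_Ico.1 hw1).2]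
      exact (Int.emod_emod_of_dvd _ dvd_rfl).symm.trans ((Int.emod_emod_of_dvd _ dvd_rfl).trans
        (Int.emod_eq_emod_iff_emod_sub_eq_zero.2 (Int.emod_eq_zero_of_dvd (by
          have := b1.sub b4
          rwa [sub_sub_sub_cancel_left] at this))))
    · refine h n hn ((Nat.le_mul_of_pos_right M hl.pos).trans_lt hlt) j hj ?_
      obtain ⟨z, hz⟩ := e
      exact ⟨l * z + (w - j₀ - r) * u, by linear_combination hz + r * huv⟩

/-- A rotation that separates. -/
theorem rot {k : ℕ} (s : Fin k → ℝ) (m : Fin k → ℤ) {δ : ℝ} (hδ : 0 < δ) :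
    ∃ (X : Type) (_ : MeasurableSpace X) (μ : Measure X) (_ : IsProbabilityMeasure μ)
      (T : Equiv.Perm X), Measurable T ∧ Measurable T.symm ∧ Ergodic T μ ∧
      ∃ (A₀ : Set X) (A : Fin k → Set X), MeasurableSet A₀ ∧ (∀ i, MeasurableSet (A i)) ∧
        0 < μ A₀ ∧ (∀ i, 0 < μ (A i)) ∧ ∀ n : Fin k → ℤ,
          (A₀ ∩ ⋂ i, (⇑(T ^ n i)) ⁻¹' A i).Nonempty →
            ∀ i, ∃ z : ℤ, |(n i - m i) * s i - z| < 2 * δ := by
  let v : Fin k → UnitAddCircle := fun i => (s i : UnitAddCircle)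
  let G : AddSubgroup (Fin k → UnitAddCircle) := (AddSubgroup.zmultiples v).topologicalClosure
  have : CompactSpace G := isCompact_iff_compactSpace.1
    (AddSubgroup.isClosed_topologicalClosure _).isCompact
  borelize ↥G
  let g : G := ⟨v, AddSubgroup.le_topologicalClosure _ (AddSubgroup.mem_zmultiples v)⟩
  have hg : DenseRange fun n : ℤ => n • g := by
    refine (Subtype.dense_iff.2 ?_)
    refine closure_mono ?_
    rintro _ ⟨n, rfl⟩
    exact ⟨n • g, ⟨n, rfl⟩, rfl⟩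
  let μ : Measure G := Measure.addHaarMeasure ⊤
  have : IsProbabilityMeasure μ := ⟨by
    simpa using Measure.addHaarMeasure_self (K₀ := (⊤ : TopologicalSpace.PositiveCompacts G))⟩
  have hz : ∀ (n : ℤ) (x : G), (Equiv.addLeft g ^ n) x = n • g + x := fun n x => by
    induction n using Int.induction_on generalizing x with
    | zero => simp
    | succ n ih =>
      rw [zpow_add_one, Equiv.Perm.mul_apply, ih, add_smul, one_smul, add_assoc]
      rfl
    | pred n ih =>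
      rw [zpow_sub_one, Equiv.Perm.mul_apply, ih, sub_smul, one_smul, sub_eq_add_neg, add_assoc]
      rfl
  have ho : ∀ (i : Fin k) (w : UnitAddCircle), IsOpen {x : G | ‖x.1 i - w‖ < δ} := fun i w =>
    isOpen_lt (((continuous_apply i).comp continuous_subtype_val).sub continuous_const).norm
      continuous_const
  have h0 : IsOpen (⋂ i, {x : G | ‖x.1 i - 0‖ < δ}) := isOpen_iInter_of_finite fun i => ho i 0
  refine ⟨G, inferInstance, μ, inferInstance, Equiv.addLeft g, measurable_const_add g,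
    measurable_const_add (-g), ergodic_add_left_of_denseRange_zsmul hg μ, _,
    fun i => {x : G | ‖x.1 i - m i • v i‖ < δ}, h0.measurableSet, fun i => (ho i _).measurableSet,
    h0.measure_pos μ ⟨0, by simp [hδ]⟩, fun i => (ho i _).measure_pos μ ⟨m i • g, by simp [g, hδ]⟩,
    fun n ⟨x, h1, h2⟩ i => ⟨round ((n i - m i) * s i), ?_⟩⟩
  have b1 : ‖x.1 i - 0‖ < δ := Set.mem_iInter.1 h1 i
  have b2 : ‖((Equiv.addLeft g ^ n i) x).1 i - m i • v i‖ < δ := Set.mem_iInter.1 h2 i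
  rw [hz] at b2
  rw [← UnitAddCircle.norm_eq]
  have b3 : (((n i - m i) * s i : ℝ) : UnitAddCircle) =
      ((n i • g + x).1 i - m i • v i) - (x.1 i - 0) := by
    rw [← Int.cast_sub, ← zsmul_eq_mul, AddCircle.coe_zsmul, sub_smul]
    simp [g, v]
    abel
  rw [b3]
  exact (norm_sub_le _ _).trans_lt (by linarith)

/-- Without the hypothesis hitting fails. -/
theorem conv (H : HF) {k : ℕ} {a : Fin k → ℝ → ℝ} (ha : ∀ i, a i ∈ H.car) {c : Fin k → ℝ}
    (hc : c ≠ 0) (q : ℤ[X])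
    (hq : ¬ Tendsto (fun t : ℝ => |(∑ i, c i * a i t) - Polynomial.aeval t q|) atTop atTop) :
    ∃ (X : Type) (_ : MeasurableSpace X) (μ : Measure X) (_ : IsProbabilityMeasure μ)
      (T : Equiv.Perm X), Measurable T ∧ Measurable T.symm ∧ Ergodic T μ ∧
      ∃ (A₀ : Set X) (A : Fin k → Set X), MeasurableSet A₀ ∧ (∀ i, MeasurableSet (A i)) ∧
        0 < μ A₀ ∧ (∀ i, 0 < μ (A i)) ∧
          {n : ℕ | n.Prime ∧ 0 < μ (A₀ ∩ ⋂ i, (⇑(T ^ ⌊a i (n : ℝ)⌋)) ⁻¹' A i)}.Finite := by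
  have hm : (fun t : ℝ => (∑ i, c i * a i t) - Polynomial.aeval t q) ∈ H.car := by
    refine H.sub (H.sum univ fun i _ => H.mul _ _ (H.const (c i)) (ha i)) ?_
    simpa only [Polynomial.eval_map_algebraMap] using H.poly (q.map (algebraMap ℤ ℝ))
  obtain ⟨L, hL⟩ := (H.lim hm).resolve_right hq
  obtain ⟨N, hN⟩ := eventually_atTop.1 ((hL.comp tendsto_natCast_atTop_atTop).abs.eventually
    (gt_mem_nhds (lt_add_one |L|)))
  obtain ⟨i₀, hi₀⟩ := Function.ne_iff.1 hc
  obtain ⟨J, hJ⟩ := exists_nat_ge (|L| + 2 + ∑ i, |c i| + |c i₀|)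
  obtain ⟨M, hM, r, hr⟩ := miss q (Icc (-J) J)
  have hM0 : (0 : ℝ) < M := by exact_mod_cast hM
  obtain ⟨X, mX, μ, pμ, T, t1, t2, t3, A₀, A, a1, a2, a3, a4, a5⟩ :=
    rot (fun i => c i / M) (Pi.single i₀ ⌊r / c i₀⌋) (δ := 1 / (2 * M * (k + 1))) (by positivity)
  refine ⟨X, mX, μ, pμ, T, t1, t2, t3, A₀, A, a1, a2, a3, a4,
    (Set.finite_le_nat (max N M)).subset fun n hn => (not_lt (a := max N M)).1 fun hlt => ?_⟩
  choose z hz using a5 _ (nonempty_of_measure_ne_zero hn.2.ne')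
  refine hr n hn.1 ((le_max_right _ _).trans_lt hlt) (q.eval (n : ℤ) - r - M * ∑ i, z i) ?_
    ⟨∑ i, z i, by ring⟩
  have b1 := hN n ((le_max_left _ _).trans hlt.le)
  have b2 : |∑ i, c i * a i n - ∑ i, c i * ⌊a i n⌋| ≤ ∑ i, |c i| := by
    rw [← sum_sub_distrib]
    refine (abs_sum_le_sum_abs _ _).trans (sum_le_sum fun i _ => ?_)
    rw [← mul_sub, abs_mul]
    refine mul_le_of_le_one_right (abs_nonneg _) (abs_le.2 ⟨?_, ?_⟩) <;>
      linarith [Int.floor_le (a i n), Int.lt_floor_add_one (a i n)]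
  have b3 : |⌊r / c i₀⌋ * c i₀ - r| ≤ |c i₀| := by
    rw [show ⌊r / c i₀⌋ * c i₀ - r = c i₀ * (⌊r / c i₀⌋ - r / c i₀) by
      have : c i₀ ≠ 0 := hi₀
      field_simp, abs_mul]
    refine mul_le_of_le_one_right (abs_nonneg _) (abs_le.2 ⟨?_, ?_⟩) <;>
      linarith [Int.floor_le (r / c i₀), Int.lt_floor_add_one (r / c i₀)]
  have b4 : |∑ i, c i * ⌊a i n⌋ - ⌊r / c i₀⌋ * c i₀ - M * ∑ i, (z i : ℝ)| ≤ 1 := by
    have e : ∑ i, c i * ⌊a i n⌋ - ⌊r / c i₀⌋ * c i₀ - M * ∑ i, (z i : ℝ) = ∑ i, M *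
        ((⌊a i n⌋ - (Pi.single i₀ ⌊r / c i₀⌋ : Fin k → ℤ) i) * (c i / M) - z i) := by
      have e1 : ⌊r / c i₀⌋ * c i₀ = ∑ i, ((Pi.single i₀ ⌊r / c i₀⌋ : Fin k → ℤ) i : ℝ) * c i := by
        rw [sum_eq_single i₀ (fun i _ hi => by simp [Pi.single_eq_of_ne hi]) (by simp)]
        simp
      rw [e1, mul_sum, ← sum_sub_distrib, ← sum_sub_distrib]
      refine sum_congr rfl fun i _ => ?_
      field_simp
    rw [e]
    refine (abs_sum_le_sum_abs _ _).trans ((sum_le_card_nsmul _ _ (1 / (k + 1) : ℝ)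
      fun i _ => ?_).trans ?_)
    · rw [abs_mul, abs_of_pos hM0]
      refine (mul_le_mul_of_nonneg_left (hz i).le hM0.le).trans_eq ?_
      field_simp
    · rw [card_univ, Fintype.card_fin, nsmul_eq_mul, mul_one_div, div_le_one (by positivity)]
      linarith
  have b5 : Polynomial.aeval (n : ℝ) q = (q.eval (n : ℤ) : ℤ) := by
    simpa using Polynomial.aeval_algebraMap_apply ℝ (n : ℤ) q
  simp only [Function.comp, b5] at b1
  rw [mem_Icc, ← abs_le, ← Int.cast_le (R := ℝ)]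
  push_cast
  rw [abs_le] at b2 b3 b4 ⊢
  rw [abs_lt] at b1
  constructor <;> linarith [b1.1, b1.2, b2.1, b2.2, b3.1, b3.2, b4.1, b4.2]

end Pool.Agent.MP_357fb4_an.Iff
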