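import Pool.Agent.MP_357fb4_an.Iff.Main

/-! The optimal lower bound in arbitrary systems, by the inequality of Simons. -/

open scoped BigOperators Classical Polynomial BoundedContinuousFunction ENNReal
open Finset Filter MeasureTheory Topology

noncomputable section

namespace Pool.Agent.MP_357fb4_an.Iff

/-- The inequality of Simons. -/
theorem simons {V K : Type} [NormedAddCommGroup V] [NormedSpace ℝ V] [CompleteSpace V]
    (I : K → V →ₗ[ℝ] ℝ) (hI : ∀ e ψ, I e ψ ≤ ‖ψ‖) (B : K → Prop)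
    (hB : ∀ ψ, ∃ b, B b ∧ ∀ e, I e ψ ≤ I b ψ) {φ : ℕ → V} {M : ℝ} (hM : ∀ n, ‖φ n‖ ≤ M)
    (h : ∀ b, B b → ∀ ε : ℝ, 0 < ε → ∀ᶠ n in atTop, I b (φ n) ≤ ε) (e : K) (m : ℝ) (hm : 0 < m) :
    ∀ᶠ n in atTop, I e (φ n) ≤ m := by
  by_contra hno
  rw [not_eventually, frequently_atTop] at hno
  have hM0 : 0 ≤ M := (norm_nonneg _).trans (hM 0)
  choose b hb1 hb2 using hB
  obtain ⟨p, hp⟩ : ∃ p : V → ℝ, ∀ ψ, p ψ = I (b ψ) ψ := ⟨_, fun _ => rfl⟩
  have p1 : ∀ e ψ, I e ψ ≤ p ψ := fun e ψ => hp ψ ▸ hb2 ψ e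
  have p2 : ∀ ψ, -‖ψ‖ ≤ p ψ := fun ψ => by
    have := hI (b ψ) (-ψ)
    rw [map_neg, norm_neg] at this
    rw [hp]
    linarith
  obtain ⟨C, hC⟩ : ∃ C : ℕ → Set V, ∀ n ψ, ψ ∈ C n ↔ ‖ψ‖ ≤ M ∧ m ≤ I e ψ ∧
      ∀ b r, (∀ k, n ≤ k → I b (φ k) ≤ r) → I b ψ ≤ r := ⟨fun n => {ψ | _}, fun _ _ => Iff.rfl⟩
  obtain ⟨l, l0, l1, l2⟩ : ∃ l : ℝ, 0 < l ∧ l ≤ 1 / 2 ∧ 8 * M * l ≤ m := by
    refine ⟨m / (2 * m + 8 * M), by positivity, ?_, ?_⟩
    · rw [div_le_iff₀ (by positivity)]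
      linarith
    · rw [← mul_div_assoc, div_le_iff₀ (by positivity)]
      nlinarith
  have ex : ∀ (n : ℕ) (s : V), ∃ g ∈ C n, ∀ g' ∈ C n,
      p (s + l ^ n • g) ≤ p (s + l ^ n • g') + m / 8 * (l / 2) ^ (n + 1) := by
    intro n s
    obtain ⟨k, k1, k2⟩ := hno n
    have a1 : φ k ∈ C n := (hC _ _).2 ⟨hM k, (not_le.1 k2).le, fun b r hr => hr k k1⟩
    have a2 : BddBelow ((fun g => p (s + l ^ n • g)) '' C n) := by
      refine ⟨-(‖s‖ + l ^ n * M), ?_⟩
      rintro _ ⟨g, hg, rfl⟩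
      refine le_trans (neg_le_neg ((norm_add_le _ _).trans ?_)) (p2 _)
      rw [norm_smul, Real.norm_of_nonneg (by positivity)]
      have := ((hC _ _).1 hg).1
      gcongr
    obtain ⟨_, ⟨g, hg, rfl⟩, a3⟩ := Real.lt_sInf_add_pos (⟨_, φ k, a1, rfl⟩ :
      ((fun g => p (s + l ^ n • g)) '' C n).Nonempty)
      (show 0 < m / 8 * (l / 2) ^ (n + 1) by positivity)
    exact ⟨g, hg, fun g' hg' => a3.le.trans (add_le_add (csInf_le a2 ⟨g', hg', rfl⟩) le_rfl)⟩
  choose G hG1 hG2 using ex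
  obtain ⟨S, S0, S1⟩ : ∃ S : ℕ → V, S 0 = 0 ∧ ∀ n, S (n + 1) = S n + l ^ n • G n (S n) :=
    ⟨fun n => Nat.rec 0 (fun n s => s + l ^ n • G n s) n, rfl, fun _ => rfl⟩
  have key : ∀ n, (1 + l) * p (S (n + 1)) ≤
      l * p (S n) + p (S (n + 2)) + (1 + l) * (m / 8 * (l / 2) ^ (n + 1)) := by
    intro n
    obtain ⟨a1, a2, a3⟩ := (hC _ _).1 (hG1 n (S n))
    obtain ⟨b1, b2, b3⟩ := (hC _ _).1 (hG1 (n + 1) (S (n + 1)))
    have hl : 0 < 1 + l := by positivity
    have c0 : ∀ x y r : ℝ, x ≤ r → y ≤ r → 1 / (1 + l) * x + l / (1 + l) * y ≤ r := by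
      intro x y r hx hy
      calc _ ≤ 1 / (1 + l) * r + l / (1 + l) * r := by gcongr
        _ = r := by field_simp
    have c1 := hG2 n (S n) ((1 / (1 + l)) • G n (S n) + (l / (1 + l)) • G (n + 1) (S (n + 1)))
      ((hC _ _).2 ⟨(norm_add_le _ _).trans (by
        rw [norm_smul, norm_smul, Real.norm_of_nonneg (by positivity),
          Real.norm_of_nonneg (by positivity)]
        exact c0 _ _ _ a1 b1), by
        rw [map_add, map_smul, map_smul, smul_eq_mul, smul_eq_mul]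
        linarith [c0 _ _ _ (neg_le_neg a2) (neg_le_neg b2)], fun b r hr => by
        rw [map_add, map_smul, map_smul, smul_eq_mul, smul_eq_mul]
        exact c0 _ _ _ (a3 b r hr) (b3 b r fun k hk => hr k (by omega))⟩)
    rw [← S1] at c1
    generalize hz : S n + l ^ n • ((1 / (1 + l)) • G n (S n) +
      (l / (1 + l)) • G (n + 1) (S (n + 1))) = z at c1
    have c2 : (1 + l) • z = l • S n + S (n + 2) := by
      rw [← hz, S1 (n + 1)]
      generalize G (n + 1) (S (n + 1)) = y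
      rw [S1 n]
      match_scalars <;> field_simp <;> ring
    have c3 : (1 + l) * p z ≤ l * p (S n) + p (S (n + 2)) := by
      rw [hp z, ← smul_eq_mul, ← map_smul, c2, map_add, map_smul, smul_eq_mul]
      exact add_le_add (mul_le_mul_of_nonneg_left (p1 _ _) l0.le) (p1 _ _)
    nlinarith [mul_le_mul_of_nonneg_left c1 hl.le]
  have inc : ∀ n, l ^ n * (m - m / 4 * (1 - (1 / 2) ^ n)) ≤ p (S (n + 1)) - p (S n) := by
    intro n
    induction n with
    | zero =>
      have a1 := p1 e (S 1)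
      rw [hp (S 0), S0, map_zero]
      rw [S1, S0, zero_add, pow_zero, one_smul] at a1 ⊢
      have := ((hC _ _).1 (hG1 0 0)).2.1
      simp only [pow_zero]
      linarith
    | succ n ih =>
      have a1 := key n
      have a2 := mul_le_mul_of_nonneg_left ih l0.le
      have a3 : (1 + l) * (m / 8 * (l / 2) ^ (n + 1)) ≤ 2 * (m / 8 * (l / 2) ^ (n + 1)) := by
        gcongr
        linarith
      have a4 : l ^ (n + 1) * (m - m / 4 * (1 - (1 / 2) ^ (n + 1))) =
          l * (l ^ n * (m - m / 4 * (1 - (1 / 2) ^ n))) - 2 * (m / 8 * (l / 2) ^ (n + 1)) := by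
        ring
      linarith
  have inc' : ∀ n, l ^ n * (3 * m / 4) ≤ p (S (n + 1)) - p (S n) := fun n => by
    refine le_trans ?_ (inc n)
    have : 0 ≤ m / 4 * (1 / 2) ^ n := by positivity
    gcongr
    linarith
  have mono : Monotone fun n => p (S n) := monotone_nat_of_le_succ fun n => by
    have : 0 ≤ l ^ n * (3 * m / 4) := by positivity
    linarith [inc' n]
  have hd : ∀ n, dist (S n) (S (n + 1)) ≤ M * l ^ n := fun n => by
    rw [S1, dist_self_add_right, norm_smul, Real.norm_of_nonneg (by positivity), mul_comm]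
    have := ((hC _ _).1 (hG1 n (S n))).1
    gcongr
  obtain ⟨s, hs⟩ := cauchySeq_tendsto_of_complete (cauchySeq_of_le_geometric l M (by linarith) hd)
  have a1 : ∀ n, p (S n) ≤ p s := fun n => by
    have b1 : Tendsto (fun N => p s + ‖S N - s‖) atTop (𝓝 (p s + 0)) :=
      tendsto_const_nhds.add (tendsto_iff_norm_sub_tendsto_zero.1 hs)
    rw [add_zero] at b1
    refine ge_of_tendsto b1 ((eventually_ge_atTop n).mono fun N hN => (mono hN).trans ?_)
    have b2 := hI (b (S N)) (S N - s)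
    rw [map_sub] at b2
    have b3 := p1 (b (S N)) s
    simp only [hp (S N)]
    linarith
  obtain ⟨n, hn⟩ := eventually_atTop.1 (h _ (hb1 s) (m / 4) (by positivity))
  have a2 := ((hC _ _).1 (hG1 n (S n))).2.2 _ _ hn
  have a3 := dist_le_of_le_geometric_of_tendsto l M (by linarith) hd hs (n + 1)
  have a4 := hI (b s) (s - S (n + 1))
  rw [map_sub, ← hp, S1, map_add, map_smul, smul_eq_mul, ← S1, ← dist_eq_norm, dist_comm] at a4
  have a5 : M * l ^ (n + 1) / (1 - l) ≤ l ^ n * (m / 4) := by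
    rw [div_le_iff₀ (by linarith)]
    calc M * l ^ (n + 1) = l ^ n * (8 * M * l / 4) * (1 / 2) := by ring
      _ ≤ _ := by gcongr; linarith
  have a6 := mul_le_mul_of_nonneg_left a2 (pow_pos l0 n).le
  have a7 : 0 < l ^ n * (m / 4) := by positivity
  linarith [a1 (n + 1), inc' n, p1 (b s) (S n)]

/-- Integration against a finite measure. -/
def Ig {Y : Type} [TopologicalSpace Y] [MeasurableSpace Y] [OpensMeasurableSpace Y] (ν : Measure Y)
    [IsFiniteMeasure ν] : (Y →ᵇ ℝ) →ₗ[ℝ] ℝ where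
  toFun ψ := ∫ y, ψ y ∂ν
  map_add' ψ ψ' := integral_add (ψ.integrable ν) (ψ'.integrable ν)
  map_smul' a ψ := integral_smul a ψ

/-- Every continuous function has an ergodic maximising measure. -/
theorem erg_max {Y : Type} [TopologicalSpace Y] [CompactSpace Y] [TopologicalSpace.MetrizableSpace Y]
    [MeasurableSpace Y] [BorelSpace Y] (σ : C(Y, Y)) (ν₀ : ProbabilityMeasure Y)
    (h0 : MeasurePreserving σ ν₀ ν₀) (ψ : Y →ᵇ ℝ) :
    ∃ ν : ProbabilityMeasure Y, Ergodic σ ν ∧ ∀ ν' : ProbabilityMeasure Y,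
      MeasurePreserving σ ν' ν' → ∫ y, ψ y ∂ν' ≤ ∫ y, ψ y ∂ν := by
  have hc := fun f : Y →ᵇ ℝ => ProbabilityMeasure.continuous_integral_boundedContinuousFunction f
  have hK : IsClosed {ν : ProbabilityMeasure Y | MeasurePreserving σ ν ν} := by
    have : {ν : ProbabilityMeasure Y | MeasurePreserving σ ν ν} =
        ⋂ f : Y →ᵇ ℝ, {ν : ProbabilityMeasure Y | ∫ y, f.compContinuous σ y ∂ν = ∫ y, f y ∂ν} := by
      ext ν
      have e : ∀ f : Y →ᵇ ℝ, ∫ y, f y ∂((ν : Measure Y).map σ) = ∫ y, f.compContinuous σ y ∂ν :=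
        fun f => integral_map σ.continuous.measurable.aemeasurable
          f.continuous.aestronglyMeasurable
      simp only [Set.mem_iInter, Set.mem_ofPred_eq, ← e]
      exact ⟨fun h f => by rw [h.map_eq], fun h => ⟨σ.continuous.measurable,
        ext_of_forall_integral_eq_of_IsFiniteMeasure h⟩⟩
    rw [this]
    exact isClosed_iInter fun f => isClosed_eq (hc _) (hc _)
  obtain ⟨ν₁, n1, n2⟩ := hK.isCompact.exists_isMaxOn ⟨ν₀, h0⟩ (hc ψ).continuousOn
  let J : ProbabilityMeasure Y → (Y →ᵇ ℝ) → ℝ := fun ν f => ∫ y, f y ∂ν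
  have hF : IsCompact (J '' ({ν : ProbabilityMeasure Y | MeasurePreserving σ ν ν} ∩
      {ν : ProbabilityMeasure Y | ∫ y, ψ y ∂ν = ∫ y, ψ y ∂ν₁})) :=
    (hK.inter (isClosed_eq (hc ψ) continuous_const)).isCompact.image (continuous_pi hc)
  obtain ⟨_, ⟨ν, ⟨m1, m2⟩, rfl⟩, m3⟩ := hF.extremePoints_nonempty ⟨_, ν₁, ⟨n1, rfl⟩, rfl⟩
  refine ⟨ν, Ergodic.of_mem_extremePoints ⟨⟨m1, inferInstance⟩, ?_⟩,
    fun ν' h => (n2 h).trans_eq m2.symm⟩
  rintro x ⟨x1, x2⟩ z ⟨z1, z2⟩ ⟨a, b, ha, hb, hab, e⟩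
  have ta : a ≠ ∞ := ne_top_of_le_ne_top ENNReal.one_ne_top (hab ▸ le_self_add)
  have tb : b ≠ ∞ := ne_top_of_le_ne_top ENNReal.one_ne_top (hab ▸ le_add_self)
  have pa := ENNReal.toReal_pos ha.ne' ta
  have pb := ENNReal.toReal_pos hb.ne' tb
  have pab : a.toReal + b.toReal = 1 := by rw [← ENNReal.toReal_add ta tb, hab, ENNReal.toReal_one]
  have e1 : ∀ f : Y →ᵇ ℝ, a.toReal * ∫ y, f y ∂x + b.toReal * ∫ y, f y ∂z = ∫ y, f y ∂ν := by
    intro f
    rw [← e, integral_add_measure ((f.integrable x).smul_measure ta)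
      ((f.integrable z).smul_measure tb), integral_smul_measure, integral_smul_measure]
    rfl
  have u1 : ∫ y, ψ y ∂x ≤ ∫ y, ψ y ∂ν₁ := n2 (show (⟨x, x2⟩ : ProbabilityMeasure Y) ∈ _ from x1)
  have u2 : ∫ y, ψ y ∂z ≤ ∫ y, ψ y ∂ν₁ := n2 (show (⟨z, z2⟩ : ProbabilityMeasure Y) ∈ _ from z1)
  have u3 : a.toReal * ∫ y, ψ y ∂x + b.toReal * ∫ y, ψ y ∂z =
      (a.toReal + b.toReal) * ∫ y, ψ y ∂ν₁ := by rw [e1, pab, one_mul]; exact m2
  have u4 := mul_le_mul_of_nonneg_left u1 pa.le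
  have u5 := mul_le_mul_of_nonneg_left u2 pb.le
  have v1 : ∫ y, ψ y ∂x = ∫ y, ψ y ∂ν₁ := mul_left_cancel₀ pa.ne' (by linarith)
  have v2 : ∫ y, ψ y ∂z = ∫ y, ψ y ∂ν₁ := mul_left_cancel₀ pb.ne' (by linarith)
  have w := m3 ⟨⟨x, x2⟩, ⟨x1, v1⟩, rfl⟩ ⟨⟨z, z2⟩, ⟨z1, v2⟩, rfl⟩
    ⟨a.toReal, b.toReal, pa, pb, pab, funext e1⟩
  exact ext_of_forall_integral_eq_of_IsFiniteMeasure fun f => congrFun w f

/-- The shift on binary sequences. -/
def sh (n : ℤ) : C(ℤ → Bool, ℤ → Bool) :=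
  ⟨fun y m => y (m + n), continuous_pi fun m => continuous_apply (m + n)⟩

/-- The shift as a permutation. -/
def shP : Equiv.Perm (ℤ → Bool) where
  toFun := sh 1
  invFun := sh (-1)
  left_inv y := funext fun m => by simp [sh]
  right_inv y := funext fun m => by simp [sh]

theorem shP_zpow (n : ℤ) (y : ℤ → Bool) : (shP ^ n) y = sh n y := by
  induction n using Int.induction_on generalizing y with
  | zero => exact funext fun m => by simp [sh]
  | succ n ih =>
    rw [zpow_add_one, Equiv.Perm.mul_apply, ih]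
    exact funext fun m => congrArg y (add_assoc _ _ _)
  | pred n ih =>
    rw [zpow_sub_one, Equiv.Perm.mul_apply, ih]
    exact funext fun m => congrArg y (add_assoc _ _ _)

/-- The indicator of a clopen set. -/
def ci {s : Set (ℤ → Bool)} (h : IsClopen s) : (ℤ → Bool) →ᵇ ℝ :=
  BoundedContinuousFunction.mkOfCompact ⟨s.indicator fun _ => 1, h.continuous_indicator continuous_const⟩

theorem ci_int {s : Set (ℤ → Bool)} (h : IsClopen s) (ν : Measure (ℤ → Bool)) [IsFiniteMeasure ν] :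
    Ig ν (ci h) = ν.real s := by
  change ∫ y, s.indicator (fun _ => (1 : ℝ)) y ∂ν = _
  rw [integral_indicator_const _ h.isOpen.measurableSet, smul_eq_mul, mul_one]

theorem ci_norm {s : Set (ℤ → Bool)} (h : IsClopen s) : ‖ci h‖ ≤ 1 :=
  (BoundedContinuousFunction.norm_le zero_le_one).2 fun y => by
    change ‖s.indicator (fun _ => (1 : ℝ)) y‖ ≤ 1
    by_cases e : y ∈ s <;> simp [e]

/-- The optimal lower bound in arbitrary systems. -/
theorem optimal (H : HF) {k : ℕ} {a : Fin k → ℝ → ℝ} (ha : ∀ i, a i ∈ H.car)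
    (hgr : ∀ i, ∃ d : ℕ, ∀ᶠ t in atTop, |a i t| ≤ t ^ d)
    (hfar : ∀ c : Fin k → ℝ, c ≠ 0 → ∀ p : ℤ[X],
      Tendsto (fun t : ℝ => |(∑ i, c i * a i t) - Polynomial.aeval t p|) atTop atTop)
    {X : Type} [MeasurableSpace X] (μ : Measure X) [IsProbabilityMeasure μ] (T : Equiv.Perm X)
    (hT : Measurable T) (hT' : Measurable T.symm) (hp : MeasurePreserving T μ μ) {A : Set X}
    (hA : MeasurableSet A) {ε : ℝ} (hε : 0 < ε) :
    {n : ℕ | n.Prime ∧ μ.real A ^ (k + 1) - ε <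
      μ.real (A ∩ ⋂ i, (⇑(T ^ ⌊a i (n : ℝ)⌋)) ⁻¹' A)}.Infinite := by
  obtain ⟨c, c0, c1, c2, c3, c4⟩ := main_lim H ha hgr hfar
  have hz := Erg_zpow μ T hT hT' hp
  let φ : X → ℤ → Bool := fun x m => decide ((T ^ m) x ∈ A)
  have hφ : Measurable φ := by
    refine measurable_pi_lambda _ fun m => measurable_to_bool ?_
    have : (fun x => φ x m) ⁻¹' {true} = (⇑(T ^ m)) ⁻¹' A := by
      ext x
      simp [φ]
    rw [this]
    exact (hz m).measurable hA
  let ν₀ : ProbabilityMeasure (ℤ → Bool) :=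
    ⟨μ.map φ, Measure.isProbabilityMeasure_map hφ.aemeasurable⟩
  have h0 : MeasurePreserving (sh 1) ν₀ ν₀ := by
    refine ⟨(sh 1).continuous.measurable, ?_⟩
    change (μ.map φ).map (sh 1) = μ.map φ
    rw [Measure.map_map (sh 1).continuous.measurable hφ,
      show sh 1 ∘ φ = φ ∘ T from funext fun x => funext fun m => by
        simp only [φ, sh, Function.comp, ContinuousMap.coe_mk, zpow_add_one, Equiv.Perm.mul_apply],
      ← Measure.map_map hφ hT, hp.map_eq]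
  have hB : IsClopen {y : ℤ → Bool | y 0 = true} :=
    (isClopen_discrete {true}).preimage (continuous_apply 0)
  generalize hBd : {y : ℤ → Bool | y 0 = true} = B at hB
  have hP : ∀ n : ℕ, IsClopen (B ∩ ⋂ i, sh ⌊a i n⌋ ⁻¹' B) := fun n =>
    hB.inter (isClopen_iInter_of_finite fun i => hB.preimage (sh _).continuous)
  have e1 : (ν₀ : Measure (ℤ → Bool)).real B = μ.real A := by
    change (μ.map φ).real B = _
    rw [map_measureReal_apply hφ hB.isOpen.measurableSet, ← hBd]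
    congr 1
    ext x
    simp [φ]
  have e2 : ∀ n : ℕ, (ν₀ : Measure (ℤ → Bool)).real (B ∩ ⋂ i, sh ⌊a i n⌋ ⁻¹' B) =
      μ.real (A ∩ ⋂ i, (⇑(T ^ ⌊a i (n : ℝ)⌋)) ⁻¹' A) := fun n => by
    change (μ.map φ).real _ = _
    rw [map_measureReal_apply hφ (hP n).isOpen.measurableSet, ← hBd]
    congr 1
    ext x
    simp [φ, sh]
  have x0 : 0 ≤ μ.real A := measureReal_nonneg
  generalize μ.real A = x at e1 x0
  let ℓ : (ℤ → Bool) →ᵇ ℝ := (x ^ (k + 1) - (k + 1) * x ^ k * x) • ci isClopen_univ +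
    ((k + 1) * x ^ k) • ci hB
  let ψ : ℕ → (ℤ → Bool) →ᵇ ℝ := fun j => ∑ n ∈ range j, c j n • (ℓ - ci (hP n))
  have hψ : ∀ (ν : ProbabilityMeasure (ℤ → Bool)) j, Ig (ν : Measure (ℤ → Bool)) (ψ j) =
      ∑ n ∈ range j, c j n * (x ^ (k + 1) + (k + 1) * x ^ k * ((ν : Measure (ℤ → Bool)).real B - x) -
        (ν : Measure (ℤ → Bool)).real (B ∩ ⋂ i, sh ⌊a i n⌋ ⁻¹' B)) := fun ν j => by
    simp only [ψ, ℓ, map_sum, map_smul, map_sub, map_add, ci_int, smul_eq_mul, probReal_univ]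
    exact sum_congr rfl fun n _ => by ring
  obtain ⟨M, hM⟩ := c3.bddAbove_range
  have key := simons (K := {ν : ProbabilityMeasure (ℤ → Bool) // MeasurePreserving (sh 1) ν ν})
    (fun ν => Ig (ν.1 : Measure (ℤ → Bool))) (fun ν f => (le_abs_self _).trans
      (f.norm_integral_le_norm (ν.1 : Measure (ℤ → Bool)))) (fun ν => Ergodic (sh 1) ν.1)
    (fun f => by
      obtain ⟨ν, n1, n2⟩ := erg_max (sh 1) ν₀ h0 f
      exact ⟨⟨ν, n1.toMeasurePreserving⟩, n1, fun e => n2 e.1 e.2⟩)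
    (φ := ψ) (M := M * (‖ℓ‖ + 1)) (fun j => by
      refine (norm_sum_le _ _).trans ((sum_le_sum fun n _ => ?_).trans ((sum_mul _ _ _).symm.trans_le
        (mul_le_mul_of_nonneg_right (hM (Set.mem_range_self j)) (by positivity))))
      rw [norm_smul, Real.norm_of_nonneg (c0 j n)]
      exact mul_le_mul_of_nonneg_left ((norm_sub_le _ _).trans
        (add_le_add le_rfl (ci_norm _))) (c0 j n))
    (fun ν erg δ hδ => by
      have mz := Erg_zpow (ν.1 : Measure (ℤ → Bool)) shP (sh 1).continuous.measurable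
        (sh (-1)).continuous.measurable ν.2
      let S : Sys ℤ (ℤ → Bool) ν.1 := ⟨fun n => sh n, fun n => by
        simpa only [funext (shP_zpow n)] using mz n,
        fun g h y => funext fun m => congrArg y (add_assoc _ _ _).symm,
        fun y => funext fun m => congrArg y (add_zero _)⟩
      have hm := hB.isOpen.measurableSet
      have b1 := c4 _ _ S erg _ _ (b1_ind hm) fun _ => b1_ind hm
      simp only [corr_ind S hm fun _ => hm, integral_indicator_const _ hm, Complex.real_smul,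
        mul_one] at b1
      have b2 := (Complex.continuous_re.tendsto 0).comp b1
      simp only [Function.comp_def, ← Complex.ofReal_prod, ← Complex.ofReal_mul,
        ← Complex.ofReal_sub, ← Complex.ofReal_sum, Complex.ofReal_re, Complex.zero_re] at b2
      filter_upwards [b2.eventually (le_mem_nhds (neg_lt_zero.2 hδ))] with j hj
      rw [hψ]
      refine le_trans (sum_le_sum fun n _ => ?_) ((sum_neg_distrib _).trans_le (neg_le.1 hj))
      rw [← mul_neg]
      refine mul_le_mul_of_nonneg_left ?_ (c0 j n)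
      have b3 := pow_add_mul_le_add_pow (b := (ν.1 : Measure (ℤ → Bool)).real B - x) x0
        (by linarith [measureReal_nonneg (μ := (ν.1 : Measure (ℤ → Bool))) (s := B)]) (k + 1)
      rw [prod_const, card_univ, Fintype.card_fin, ← pow_succ', neg_sub]
      rw [add_sub_cancel, Nat.add_sub_cancel] at b3
      push_cast at b3
      exact sub_le_sub_right b3 _) ⟨ν₀, h0⟩
  refine (inf_of_avg c0 c1 c2 c3 (x := fun n =>
    μ.real (A ∩ ⋂ i, (⇑(T ^ ⌊a i (n : ℝ)⌋)) ⁻¹' A) - x ^ (k + 1)) hε fun δ hδ =>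
      (key δ hδ).mono fun j hj => ?_).mono fun n hn => ⟨hn.1, by linarith [hn.2]⟩
  rw [hψ] at hj
  simp only [e1, e2, sub_self, mul_zero, add_zero] at hj
  rw [neg_le, ← sum_neg_distrib]
  simpa only [← mul_neg, neg_sub] using hj

end Pool.Agent.MP_357fb4_an.Iff
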